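import Mathlib
import Pool.Agent.R389.RatMain2
import Pool.Agent.R389.SmallMain
import Pool.Agent.R389.Simple
import Pool.Agent.R389.Metab

/-!
# Representations over a field with a real embedding and Heilbronn characters of degree two

The case of the field of rational numbers is in `Pool/Agent/R389/Even.lean` and
`Pool/Agent/R389/RatOne.lean`; the proofs are the same.
-/

set_option autoImplicit false
set_option linter.unusedSectionVars false

namespace Run7.h988.DG

open Pool.Agent.H302R2 Pool.Agent.H302R3 Pool.Agent.H541R3.ART Pool.Agent.W446.AS Pool.Agent.R389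

section even

variable {H : Type} [Group H] [Finite H]

/-- **Even multiplicity.** A linear character `ω` of a subgroup, inverted by an element `t` whose
square lies in the subgroup and has `ω`-value `-1`, has even multiplicity in every
representation over a field with the real embedding `τ`. -/
theorem even_linR {E₀ : Type} [Field E₀] (τ : E₀ →+* ℂ) (hreal : ∀ x, (starRingEnd ℂ) (τ x) = τ x)
    {A : Subgroup H} (ω : A →* ℂˣ) {t : H} (ht : ∀ n : A, t⁻¹ * n * t ∈ A)
    (hω : ∀ n : A, ω ⟨t⁻¹ * n * t, ht n⟩ = (ω n)⁻¹) (ht2 : t * t ∈ A)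
    (hω2 : ((ω ⟨t * t, ht2⟩ : ℂˣ) : ℂ) = -1) {V : Type} [AddCommGroup V] [Module E₀ V]
    [FiniteDimensional E₀ V] (ρ : Representation E₀ H V) :
    ∃ k : ℕ, pr (fun x : A => τ (ρ.character x)) (lc ω) = 2 * k := by
  classical
  have : Fintype A := Fintype.ofFinite A
  have hcA : (Nat.card A : ℂ) ≠ 0 := card_ne
  let b := Module.finBasis E₀ V
  let n := Module.finrank E₀ V
  let M : H →* Matrix (Fin n) (Fin n) E₀ :=
    { toFun := fun g => LinearMap.toMatrix b b (ρ g)
      map_one' := by rw [map_one]; exact LinearMap.toMatrix_one b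
      map_mul' := by intro x y; rw [map_mul]; exact LinearMap.toMatrix_mul b _ _ }
  let σ : Representation ℂ H (Fin n → ℂ) :=
    { toFun := fun g => Matrix.toLin' ((M g).map τ)
      map_one' := by
        rw [map_one, Matrix.map_one τ (map_zero τ) (map_one τ), Matrix.toLin'_one]
        rfl
      map_mul' := by
        intro x y
        rw [map_mul, Matrix.map_mul, Matrix.toLin'_mul]
        rfl }
  have hchar : ∀ g, τ (ρ.character g) = σ.character g := by
    intro g
    change τ (LinearMap.trace E₀ V (ρ g)) = LinearMap.trace ℂ _ (Matrix.toLin' ((M g).map τ))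
    rw [LinearMap.trace_eq_matrix_trace E₀ b (ρ g), Matrix.trace_toLin'_eq, Matrix.trace,
      Matrix.trace, map_sum]
    rfl
  -- complex conjugation
  let J : (Fin n → ℂ) → (Fin n → ℂ) := fun v i => (starRingEnd ℂ) (v i)
  have hJadd : ∀ v w, J (v + w) = J v + J w := by
    intro v w
    funext i
    exact map_add (starRingEnd ℂ) _ _
  have hJsmul : ∀ (z : ℂ) v, J (z • v) = (starRingEnd ℂ) z • J v := by
    intro z v
    funext i
    exact map_mul (starRingEnd ℂ) _ _
  have hJJ : ∀ v, J (J v) = v := by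
    intro v
    funext i
    exact Complex.conj_conj _
  have hJσ : ∀ g v, J (σ g v) = σ g (J v) := by
    intro g v
    funext i
    change (starRingEnd ℂ) ((Matrix.toLin' ((M g).map τ)) v i)
      = (Matrix.toLin' ((M g).map τ)) (J v) i
    rw [Matrix.toLin'_apply, Matrix.toLin'_apply, Matrix.mulVec, Matrix.mulVec, dotProduct,
      dotProduct, map_sum]
    refine Finset.sum_congr rfl fun j _ => ?_
    rw [map_mul]
    congr 1
    rw [Matrix.map_apply]
    exact hreal (M g i j)
  -- the isotypic part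
  let W : Submodule ℂ (Fin n → ℂ) :=
    { carrier := {v | ∀ x : A, σ x v = ((ω x : ℂˣ) : ℂ) • v}
      add_mem' := by
        intro v w hv hw x
        rw [map_add, hv x, hw x, smul_add]
      zero_mem' := by intro x; rw [map_zero, smul_zero]
      smul_mem' := by
        intro z v hv x
        rw [map_smul, hv x, smul_comm] }
  have hmemW : ∀ v, v ∈ W ↔ ∀ x : A, σ x v = ((ω x : ℂˣ) : ℂ) • v := fun v => Iff.rfl
  have hTW : ∀ v ∈ W, σ t (J v) ∈ W := by
    intro v hv
    rw [hmemW]
    intro x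
    have e1 : σ (x : H) (σ t (J v)) = σ t (J (σ (t⁻¹ * x * t) v)) := by
      rw [hJσ, ← Module.End.mul_apply, ← Module.End.mul_apply, ← map_mul, ← map_mul]
      congr 2
      group
    have e2 := hv ⟨t⁻¹ * x * t, ht x⟩
    simp only at e2
    rw [e1, e2, hω, hJsmul, map_smul]
    congr 1
    have h3 := conj_char ω x
    have h4 : (starRingEnd ℂ) ((((ω x)⁻¹ : ℂˣ) : ℂ)) = ((ω x : ℂˣ) : ℂ) := by
      rw [← h3, Complex.conj_conj]
    exact h4
  have heven : Even (Module.finrank ℂ W) := by
    refine even_of_antilinear (fun v : W => (⟨σ t (J v), hTW v v.2⟩ : W)) ?_ ?_ ?_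
    · intro v w
      apply Subtype.ext
      change σ t (J ((v : Fin n → ℂ) + w)) = σ t (J v) + σ t (J w)
      rw [hJadd, map_add]
    · intro z v
      apply Subtype.ext
      change σ t (J (z • (v : Fin n → ℂ))) = (starRingEnd ℂ) z • σ t (J v)
      rw [hJsmul, map_smul]
    · intro v
      apply Subtype.ext
      change σ t (J (σ t (J v))) = -(v : Fin n → ℂ)
      rw [hJσ, hJJ, ← Module.End.mul_apply, ← map_mul]
      have h3 := v.2 ⟨t * t, ht2⟩
      simp only at h3
      rw [h3, hω2, neg_one_smul]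
  -- the projection
  let e : (Fin n → ℂ) →ₗ[ℂ] (Fin n → ℂ) :=
    (Nat.card A : ℂ)⁻¹ • ∑ x : A, (((ω x)⁻¹ : ℂˣ) : ℂ) • σ x
  have he : ∀ v, e v = (Nat.card A : ℂ)⁻¹ • ∑ x : A, (((ω x)⁻¹ : ℂˣ) : ℂ) • σ x v := by
    intro v
    simp only [e, LinearMap.smul_apply, LinearMap.sum_apply]
  have hproj : LinearMap.IsProj W e := by
    refine ⟨fun v => ?_, fun v hv => ?_⟩
    · rw [hmemW]
      intro y
      rw [he, map_smul, map_sum, smul_comm]
      congr 1
      rw [Finset.smul_sum, ← Equiv.sum_comp (Equiv.mulLeft y)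
        (fun x => ((ω y : ℂˣ) : ℂ) • (((ω x)⁻¹ : ℂˣ) : ℂ) • σ (x : H) v)]
      refine Finset.sum_congr rfl fun x _ => ?_
      rw [map_smul, smul_smul, Equiv.coe_mulLeft, ← Module.End.mul_apply, ← map_mul]
      congr 1
      rw [map_mul, mul_inv, ← Units.val_mul, ← mul_assoc, mul_inv_cancel, one_mul]
    · rw [he]
      have h3 : ∀ x : A, (((ω x)⁻¹ : ℂˣ) : ℂ) • σ x v = v := by
        intro x
        rw [(hmemW v).mp hv x, smul_smul, ← Units.val_mul, inv_mul_cancel, Units.val_one, one_smul]
      rw [Finset.sum_congr rfl (fun x _ => h3 x), Finset.sum_const, Finset.card_univ,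
        ← Nat.card_eq_fintype_card, ← Nat.cast_smul_eq_nsmul ℂ, smul_smul,
        inv_mul_cancel₀ hcA, one_smul]
  have htr := hproj.trace
  have htr2 : LinearMap.trace ℂ _ e = pr (fun x : A => τ (ρ.character x)) (lc ω) := by
    rw [pr_eq]
    simp only [e, map_smul, map_sum, smul_eq_mul]
    congr 1
    refine Finset.sum_congr rfl fun x _ => ?_
    rw [hchar, mul_comm]
    congr 1
    change (((ω x)⁻¹ : ℂˣ) : ℂ) = ((ω x⁻¹ : ℂˣ) : ℂ)
    rw [map_inv]
  obtain ⟨k, hk⟩ := heven
  refine ⟨k, ?_⟩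
  rw [← htr2, htr, hk]
  push_cast
  ring



end even

section rat

variable {G : Type} [Group G] [Finite G] {θ : G → ℂ} {E₀ : Type} [Field E₀] (τ : E₀ →+* ℂ)
  {V : Type} [AddCommGroup V] [Module E₀ V]
  [FiniteDimensional E₀ V] (ρ : Representation E₀ G V)

/-- the complex valued character -/
noncomputable def cchR (g : G) : ℂ := τ (ρ.character g)

lemma cchR_mem : cchR τ ρ ∈ AddSubmonoid.closure (Irr G) := base_change τ ρ

lemma cchR_inv (hreal : ∀ x, (starRingEnd ℂ) (τ x) = τ x) (g : G) :
    cchR τ ρ g⁻¹ = cchR τ ρ g := by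
  rw [heil_conj (heil_of_closure (cchR_mem τ ρ))]
  exact hreal _

/-- characters on hyperelementary subgroups -/
lemma hyp_evenR (hreal : ∀ x, (starRingEnd ℂ) (τ x) = τ x) (hθ : IsHeilbronn θ) (h1 : θ 1 = 2) (hd : ∀ g, dd θ g = 1) {U : Subgroup G}
    (hU : Hyper U) : ∃ k : ℤ, pr (fun u : U => cchR τ ρ u) (fun u : U => θ u) = 2 * k ∧
      ind U (fun u : U => cchR τ ρ u) - k • ind (⊥ : Subgroup G) (fun _ => (1 : ℂ)) ∈ Good θ := by
  classical
  have : Fintype U := Fintype.ofFinite U
  have hc : ∀ g x : G, θ (x * g * x⁻¹) = θ g := hθ.conj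
  have hfV : Virt (fun u : U => cchR τ ρ u) := (virt_of_closure (cchR_mem τ ρ)).comp U.subtype
  have hθU : IsHeilbronn (fun u : U => θ u) := hθ.comp U.subtype
  have key : ∃ k : ℤ, pr (fun u : U => cchR τ ρ u) (fun u : U => θ u) = 2 * k ∧
      ∀ η ∈ Irr U, pr (fun u : U => θ u) η ≠ 0 → pr (fun u : U => cchR τ ρ u) η = k * η 1 := by
    rcases hyper_two hU hθU h1 with ⟨ψ, φ, hs⟩ | ⟨N, a, b, himp, hab⟩
    · have hφ : φ = ψ⁻¹ := by
        ext u
        have h2 := dd_of_sum hs u
        have h3 : dd (fun u : U => θ u) u = 1 := hd (u : G)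
        rw [h3, ← Units.val_mul] at h2
        have h4 : ψ u * φ u = 1 := Units.ext h2.symm
        rw [eq_inv_of_mul_eq_one_right h4]
        rfl
      obtain ⟨n, hn⟩ : ∃ n : ℕ, pr (fun u : U => cchR τ ρ u) (lc ψ) = n := by
        have hm : (fun u : U => cchR τ ρ u) ∈ AddSubmonoid.closure (Irr U) := by
          exact base_change τ (ρ.comp U.subtype)
        refine nat_closure (fun η hη => ?_) hm
        by_cases he : η = lc ψ
        · exact ⟨1, by rw [he, pr_self (lin_irr ψ)]; simp⟩
        · exact ⟨0, by rw [pr_ne hη (lin_irr ψ) he]; simp⟩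
      have hn' : pr (fun u : U => cchR τ ρ u) (lc ψ⁻¹) = n := by
        rw [← hn, pr_eq, pr_eq]
        congr 1
        rw [← Equiv.sum_comp (Equiv.inv U)]
        refine Finset.sum_congr rfl fun u _ => ?_
        simp only [Equiv.inv_apply]
        have h2 : cchR τ ρ ((u⁻¹ : U) : G) = cchR τ ρ u := by
          rw [Subgroup.coe_inv]; exact cchR_inv τ ρ hreal u
        rw [h2]
        congr 1
        change ((((ψ u⁻¹⁻¹)⁻¹ : ℂˣ)) : ℂ) = ((ψ u⁻¹ : ℂˣ) : ℂ)
        rw [inv_inv, map_inv]
      refine ⟨n, ?_, fun η hη hne => ?_⟩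
      · have h2 : (fun u : U => θ u) = lc ψ + lc ψ⁻¹ := by
          funext u
          rw [← hφ]
          exact hs u
        rw [h2, pr_comm, pr_add, pr_comm (lc ψ), pr_comm (lc ψ⁻¹), hn, hn']
        push_cast
        ring
      · rcases irr_two ψ φ hs hη hne with rfl | rfl
        · rw [hn]
          change (n : ℂ) = ((n : ℤ) : ℂ) * ((ψ 1 : ℂˣ) : ℂ)
          rw [map_one, Units.val_one, mul_one]
          push_cast
          rfl
        · rw [hφ, hn']
          change (n : ℂ) = ((n : ℤ) : ℂ) * ((ψ⁻¹ 1 : ℂˣ) : ℂ)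
          rw [map_one, Units.val_one, mul_one]
          push_cast
          rfl
    · obtain ⟨t, ht⟩ := himp.nt
      have hb : ∀ n : N, b n = (a n)⁻¹ := by
        intro n
        have h2 : dd (fun x : N => (fun u : U => θ u) x) n = ((a n : ℂˣ) : ℂ) * ((b n : ℂˣ) : ℂ) :=
          dd_of_sum himp.on n
        have h3 : dd (fun x : N => (fun u : U => θ u) x) n = 1 := hd ((n : U) : G)
        rw [h3, ← Units.val_mul] at h2
        exact eq_inv_of_mul_eq_one_right (Units.ext h2.symm)
      have htinv : t⁻¹ ∉ N := fun h' => ht ((Subgroup.inv_mem_iff N).mp h')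
      have hcm : ∀ n : N, t⁻¹ * n * t ∈ N := by
        intro n
        have := himp.conj_mem t⁻¹ n.2
        rwa [inv_inv] at this
      have ht2 : t * t ∈ N := himp.two _ _ ht ht
      have hω2 : ((a ⟨t * t, ht2⟩ : ℂˣ) : ℂ) = -1 := by
        have h2 : dd (fun u : U => θ u) t = 1 := hd (t : G)
        rw [dd] at h2
        have h3 : θ (t : G) = 0 := himp.off t ht
        have h4 := himp.on ⟨t * t, ht2⟩
        have h5 := himp.swap t ht ⟨t * t, ht2⟩ (himp.conj_mem t ht2)
        have h6 : (⟨t * ((⟨t * t, ht2⟩ : N) : U) * t⁻¹, himp.conj_mem t ht2⟩ : N)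
            = ⟨t * t, ht2⟩ := by
          apply Subtype.ext
          simp only
          group
        rw [h6] at h5
        rw [h5] at h4
        simp only at h4
        rw [h3, pow_two t, h4] at h2
        linear_combination -h2
      obtain ⟨k, hk⟩ := even_linR τ hreal a hcm (fun n => by
        have h2 := himp.swap t⁻¹ htinv n (himp.conj_mem t⁻¹ n.2)
        rw [hb] at h2
        rw [h2]
        congr 1
        apply Subtype.ext
        simp) ht2 hω2 (ρ.comp U.subtype)
      have hirr : (fun u : U => θ u) ∈ Irr U := by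
        refine irr_of_norm ?_ (himp.norm hab) (d := 2) (by simpa using h1)
        rw [himp.eq_ind]
        exact virt_ind _ (AddSubgroup.subset_closure (lin_irr _))
      have hpk : pr (fun u : U => cchR τ ρ u) (fun u : U => θ u) = 2 * k := by
        conv_lhs => rw [himp.eq_ind]
        rw [frob' N _ hfV.conj]
        exact hk
      refine ⟨k, by rw [hpk]; push_cast; rfl, fun η hη hne => ?_⟩
      have he : η = fun u : U => θ u := by
        by_contra hcon
        exact hne (pr_ne hirr hη (Ne.symm hcon))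
      rw [he, hpk]
      simp only [Subgroup.coe_one, h1]
      push_cast
      ring
  obtain ⟨k, hk, hk2⟩ := key
  refine ⟨k, hk, ?_⟩
  have h2 : ind U ((fun u : U => cchR τ ρ u)
      - k • ind ((⊥ : Subgroup G).subgroupOf U) (fun _ => (1 : ℂ))) ∈ Good θ := by
    refine good_of_pr hc hU ?_ fun η hη hne => ?_
    · exact sub_mem (S := AddSubgroup (U → ℂ)) hfV
        (zsmul_mem (S := AddSubgroup (U → ℂ)) virt_botind k)
    · rw [pr_sub, hk2 η hη hne]
      have h3 : pr (k • ind ((⊥ : Subgroup G).subgroupOf U) (fun _ => (1 : ℂ))) η = k * η 1 := by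
        rw [pr_comm]
        have h4 : (k • ind ((⊥ : Subgroup G).subgroupOf U) (fun _ => (1 : ℂ)))
            = fun u => ∑ i ∈ ({()} : Finset Unit), (k : ℂ)
              * (fun _ : Unit => ind ((⊥ : Subgroup G).subgroupOf U) (fun _ => (1 : ℂ))) i u := by
          funext u
          simp
        rw [h4, pr_sum_right]
        simp only [Finset.sum_singleton]
        rw [pr_comm, pr_botind' (Irr.conj hη)]
      rw [h3, sub_self]
  rw [ind_sub, ← indHom_apply U (k • _), map_zsmul, indHom_apply] at h2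
  have h4 : ind U (ind ((⊥ : Subgroup G).subgroupOf U) (fun _ => (1 : ℂ)))
      = ind (⊥ : Subgroup G) (fun _ => (1 : ℂ)) := by
    rw [ind_tower (bot_le : (⊥ : Subgroup G) ≤ U) (fun _ => (1 : ℂ))]
  rw [h4] at h2
  exact h2

/-- **Real characters modulo the good ones**, for Heilbronn characters of degree two and
determinant one -/
theorem rat_decompR (hreal : ∀ x, (starRingEnd ℂ) (τ x) = τ x) (hθ : IsHeilbronn θ) (h1 : θ 1 = 2) (hd : ∀ g, dd θ g = 1) :
    ∃ k : ℤ, pr (cchR τ ρ) θ = 2 * k ∧
      cchR τ ρ - k • ind (⊥ : Subgroup G) (fun _ => (1 : ℂ)) ∈ Good θ := by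
  classical
  have hV := virt_of_closure (cchR_mem τ ρ)
  have h2 := class_mem_sol hV.conj
  refine AddSubgroup.closure_induction (p := fun F _ => ∃ k : ℤ, pr F θ = 2 * k ∧
      F - k • ind (⊥ : Subgroup G) (fun _ => (1 : ℂ)) ∈ Good θ) ?_ ?_ ?_ ?_ h2
  · rintro F ⟨U, hU, rfl⟩
    obtain ⟨k, hk, hk2⟩ := hyp_evenR τ ρ hreal hθ h1 hd hU
    refine ⟨k, ?_, hk2⟩
    rw [frob U _ hθ.conj]
    exact hk
  · exact ⟨0, by rw [pr_zero_left]; simp, by rw [zero_smul, sub_zero]; exact zero_mem _⟩
  · rintro x y - - ⟨k, hk, hk2⟩ ⟨l, hl, hl2⟩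
    refine ⟨k + l, by rw [pr_add, hk, hl]; push_cast; ring, ?_⟩
    have h3 := add_mem hk2 hl2
    rw [add_smul]
    convert h3 using 1
    abel
  · rintro x - ⟨k, hk, hk2⟩
    refine ⟨-k, by rw [pr_neg, hk]; push_cast; ring, ?_⟩
    have h3 := neg_mem hk2
    rw [neg_smul]
    convert h3 using 1
    abel

end rat



end Run7.h988.DG
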