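import Mathlib
import Pool.Agent.Run7.h988.DG.Real

/-!
# Deligne's conjecture for the Artin twists: order at most two, real coefficients

The case of rational coefficients is in `Pool/Agent/R389/RatMain.lean` and
`Pool/Agent/R389/RatMain2.lean`; the proofs are the same.
-/

set_option autoImplicit false
set_option linter.unusedSectionVars false

namespace Run7.h988.DG

open Pool.Agent.H302R2 Pool.Agent.H302R3 Pool.Agent.H541R3.ART Pool.Agent.W446.AS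
  Pool.Agent.R389 Filter Topology

variable {G : Type} [Group G] [Finite G] {E : Type} [Field E]
  {L : (E →+* ℂ) → (G → ℂ) → ℂ → ℂ} {P : (E →+* ℂ) → (G → ℂ) → ℂ} {c : ℂ}

/-- the algebraic part of the value of an induced character vanishes exactly when the order is
positive -/
lemma unit_iffG (hL : ∀ τ, ∀ χ ∈ Irr G, MeromorphicAt (L τ χ) c ∧ meromorphicOrderAt (L τ χ) c ≠ ⊤)
    (hP : ∀ τ, ∀ χ ∈ Irr G, P τ χ ≠ 0) {U : Subgroup G} {ψE : U →* Eˣ} {e : E}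
    (he : DelZ L P c (ind U (fun u => ((ψE u : Eˣ) : E))) e)
    (τ : E →+* ℂ) {ψ : U →* ℂˣ} (hψ : ∀ u, τ ((ψE u : Eˣ) : E) = ((ψ u : ℂˣ) : ℂ)) :
    pr (theta (ords (L τ) c) : G → ℂ) (ind U (lc ψ)) = 0 ↔ e ≠ 0 := by
  classical
  obtain ⟨m, hm⟩ := ind_isDecomp U ψ
  have h1 : ∀ g, τ (ind U (fun u => ((ψE u : Eˣ) : E)) g)
      = ind U (fun h => ((ψ h : ℂˣ) : ℂ)) g := by
    intro g
    rw [ind_map]
    congr 1
    funext u
    exact hψ u
  have h2 := pr_ords (l := L τ) (c := c) (m := fun χ => (m χ : ℤ))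
    (fun χ hχ => by rw [hm.pr hχ]; simp)
  have h3 := order_prod (hL τ) (irrF G) subset_rfl (fun χ => (m χ : ℤ))
  have h5 := he.2 τ
  have h6 : ∀ χ ∈ irrF G,
      mult (fun g => τ (ind U (fun u => ((ψE u : Eˣ) : E)) g)) χ = (m χ : ℤ) := by
    intro χ hχ
    apply mult_of_pr
    have h7 : (fun g => τ (ind U (fun u => ((ψE u : Eˣ) : E)) g))
        = ind U (fun h => ((ψ h : ℂˣ) : ℂ)) := funext h1
    rw [h7, hm.pr (mem_irrF.mp hχ)]
    simp
  have h8 : (fun s => ∏ χ ∈ irrF G, L τ χ s ^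
      mult (fun g => τ (ind U (fun u => ((ψE u : Eˣ) : E)) g)) χ)
      = fun z => ∏ χ ∈ irrF G, L τ χ z ^ ((m χ : ℕ) : ℤ) := by
    funext z
    exact Finset.prod_congr rfl fun χ hχ => by rw [h6 χ hχ]
  rw [h8] at h5
  have hPne : ∏ χ ∈ irrF G, P τ χ ^
      mult (fun g => τ (ind U (fun u => ((ψE u : Eˣ) : E)) g)) χ ≠ 0 :=
    Finset.prod_ne_zero_iff.mpr fun χ hχ => zpow_ne_zero _ (hP τ χ (mem_irrF.mp hχ))
  change pr (theta (ords (L τ) c) : G → ℂ) (ind U (fun h => ((ψ h : ℂˣ) : ℂ))) = 0 ↔ e ≠ 0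
  rw [h2]
  constructor
  · intro h0
    have h4 : ∑ χ ∈ irrF G, (m χ : ℤ) * ords (L τ) c χ = 0 := by exact_mod_cast h0
    rw [h4] at h3
    obtain ⟨a, ha, hlim⟩ := (tendsto_ne_zero_iff_meromorphicOrderAt_eq_zero h3.1).mpr h3.2
    have h9 := tendsto_nhds_unique h5 hlim
    intro h0
    rw [h0, map_zero, zero_mul] at h9
    exact ha h9.symm
  · intro hne
    have h9 : τ e * ∏ χ ∈ irrF G, P τ χ ^
      mult (fun g => τ (ind U (fun u => ((ψE u : Eˣ) : E)) g)) χ ≠ 0 :=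
      mul_ne_zero ((map_ne_zero τ).mpr hne) hPne
    have h10 := (tendsto_ne_zero_iff_meromorphicOrderAt_eq_zero h3.1).mp ⟨_, h9, h5⟩
    rw [h3.2] at h10
    have h11 : ∑ χ ∈ irrF G, (m χ : ℤ) * ords (L τ) c χ = 0 := by exact_mod_cast h10
    rw [h11]
    norm_num

/-- the support of the orders is stable under complex conjugation -/
lemma supp_conjG {ζ : E} (hζ : IsPrimitiveRoot ζ (Monoid.exponent G))
    (hL : ∀ τ, ∀ χ ∈ Irr G, MeromorphicAt (L τ χ) c ∧ meromorphicOrderAt (L τ χ) c ≠ ⊤)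
    (hP : ∀ τ, ∀ χ ∈ Irr G, P τ χ ≠ 0)
    (hmon : ∀ (U : Subgroup G) (ψ : U →* Eˣ),
      Deligne L P c (ind U (fun u => ((ψ u : Eˣ) : E)))) (τ₀ : E →+* ℂ)
    (hLc : L ((starRingEnd ℂ).comp τ₀) = L τ₀)
    (U : Subgroup G) (ψ : U →* ℂˣ) :
    pr (theta (ords (L τ₀) c) : G → ℂ) (ind U (lc ψ)) = 0 ↔
      pr (theta (ords (L τ₀) c) : G → ℂ) (ind U (lc ψ⁻¹)) = 0 := by
  obtain ⟨ψE, hψE⟩ := lift_char hζ τ₀ U ψ
  obtain ⟨e, he⟩ := delZ_ind (hmon U ψE)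
  have h2 := unit_iffG hL hP he ((starRingEnd ℂ).comp τ₀) (ψ := ψ⁻¹) (by
    intro u
    rw [RingHom.comp_apply, hψE, conj_char]
    rfl)
  rw [hLc] at h2
  rw [unit_iffG hL hP he τ₀ hψE, h2]

/-- **Order at most two, real coefficients.** -/
theorem main_real {E₀ : Type} [Field E₀] [Algebra E₀ E] {ζ : E} (hζ : IsPrimitiveRoot ζ (Monoid.exponent G))
    (hL : ∀ τ, ∀ χ ∈ Irr G, MeromorphicAt (L τ χ) c ∧ meromorphicOrderAt (L τ χ) c ≠ ⊤)
    (hP : ∀ τ, ∀ χ ∈ Irr G, P τ χ ≠ 0)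
    (hmon : ∀ (U : Subgroup G) (ψ : U →* Eˣ),
      Deligne L P c (ind U (fun u => ((ψ u : Eˣ) : E)))) (τ₀ : E →+* ℂ)
    (hreal : ∀ x : E₀, (starRingEnd ℂ) (τ₀ (algebraMap E₀ E x)) = τ₀ (algebraMap E₀ E x))
    (hLc : L ((starRingEnd ℂ).comp τ₀) = L τ₀)
    {deg : (G → ℂ) → ℕ} (hdeg : ∀ χ ∈ Irr G, χ 1 = deg χ)
    (hz : meromorphicOrderAt (fun s => ∏ᶠ χ ∈ Irr G, L τ₀ χ s ^ deg χ) c ≤ 2)
    {V : Type} [AddCommGroup V] [Module E₀ V] [FiniteDimensional E₀ V] (ρ : Representation E₀ G V)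
    {m : (G → ℂ) → ℕ} (hm : IsDecomp (fun g => τ₀ (algebraMap E₀ E (ρ.character g))) m)
    (hpole : 0 ≤ meromorphicOrderAt (fun s => ∏ᶠ χ ∈ Irr G, L τ₀ χ s ^ m χ) c) :
    Deligne L P c (fun g => algebraMap E₀ E (ρ.character g)) := by
  classical
  have hmon' : ∀ (U : Subgroup G) (ψ : U →* Eˣ), Hyper U →
      Deligne L P c (ind U (fun u => ((ψ u : Eˣ) : E))) := fun U ψ _ => hmon U ψ
  have hF : (fun g => τ₀ (algebraMap E₀ E (ρ.character g)))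
      = cchR (τ₀.comp (algebraMap E₀ E)) ρ := rfl
  have hb : (fun g => τ₀ (algebraMap E₀ E (ρ.character g))) ∈ AddSubmonoid.closure (Irr G) := by
    rw [hF]; exact cchR_mem _ ρ
  have hθ : HH (theta (ords (L τ₀) c) : G → ℂ) := hh_ords hζ hL hmon' τ₀
  have hθH : IsHeilbronn (theta (ords (L τ₀) c) : G → ℂ) := heil_ords hζ hL hmon τ₀
  have htop := top_order (hL τ₀) deg
  have hone := theta_one_eq (c := c) (l := L τ₀) hdeg
  obtain ⟨r, hr⟩ := hθ.deg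
  have h1 : (∑ χ ∈ irrF G, (deg χ : ℤ) * ords (L τ₀) c χ) = (r : ℤ) := by
    rw [hone] at hr
    exact_mod_cast hr
  rw [h1] at htop
  by_cases hr1 : r ≤ 1
  · obtain ⟨lam, hlam⟩ := hθ.deg_le_one (theta_virt _) hr hr1
    exact old_main' hζ hL hP hmon' τ₀ Nat.prime_two ⊤ top_pgroup lam (fun k _ => hlam k) hb
  have hr2 : r = 2 := by
    rw [htop] at hz
    have h2 : ((r : ℤ) : WithTop ℤ) ≤ ((2 : ℤ) : WithTop ℤ) := hz
    have h3 : (r : ℤ) ≤ 2 := WithTop.coe_le_coe.mp h2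
    omega
  rw [hr2] at hr
  have hr' : (theta (ords (L τ₀) c) : G → ℂ) 1 = 2 := by rw [hr]; norm_num
  obtain ⟨D, hD⟩ := hθH.exists_det hr'
  by_cases hne : ∃ g, D g ≠ 1
  · have hreal : ∀ g, D g ≠ 1 → (theta (ords (L τ₀) c) : G → ℂ) g = 0 ∧
        (theta (ords (L τ₀) c) : G → ℂ) (g * g) = 2 := by
      intro g hg
      refine real_out hθH hr' (fun U ψ => supp_conjG hζ hL hP hmon τ₀ hLc U ψ) g ?_
      rw [← hD]
      intro h2
      exact hg (Units.ext h2)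
    rcases real_case hθH hr' hD hreal hne with hs | ⟨N, a, b, himp, hab⟩
    · exact main_split hζ hL hP hmon' τ₀ hr' hs hb
    · exact main_imp hζ hL hP hmon' τ₀ himp hab hb
  · have hd : ∀ g, dd (theta (ords (L τ₀) c) : G → ℂ) g = 1 := by
      intro g
      by_contra h2
      apply hne
      refine ⟨g, fun h3 => h2 ?_⟩
      rw [← hD, h3, Units.val_one]
    obtain ⟨k, hk, hgood⟩ := rat_decompR (τ₀.comp (algebraMap E₀ E)) ρ hreal hθH hr' hd
    have hk0 : 0 ≤ k := by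
      have h3 := order_prod (hL τ₀) (irrF G) subset_rfl (fun χ => (m χ : ℤ))
      have h4 : (fun s => ∏ᶠ χ ∈ Irr G, L τ₀ χ s ^ m χ)
          = fun z => ∏ χ ∈ irrF G, L τ₀ χ z ^ ((m χ : ℕ) : ℤ) := by
        funext s
        rw [finprod_irr (fun χ => L τ₀ χ s ^ m χ)]
        exact Finset.prod_congr rfl fun χ _ => by rw [zpow_natCast]
      rw [h4, h3.2] at hpole
      have h5 := pr_ords (l := L τ₀) (c := c) (m := fun χ => (m χ : ℤ))
        (fun χ hχ => by rw [hm.pr hχ]; simp)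
      rw [pr_comm, hF, hk] at h5
      have h6 : (0 : ℤ) ≤ ∑ χ ∈ irrF G, (m χ : ℤ) * ords (L τ₀) c χ := by exact_mod_cast hpole
      have h7 : 2 * k = ∑ χ ∈ irrF G, (m χ : ℤ) * ords (L τ₀) c χ := by exact_mod_cast h5
      omega
    obtain ⟨n, rfl⟩ := Int.eq_ofNat_of_zero_le hk0
    refine finish hζ hL hP hmon' τ₀ (a := (n : ℕ) • ind (⊥ : Subgroup G) (fun _ => (1 : ℂ))) ?_ ?_
    · refine nsmul_mem ?_ n
      have h3 := mono_memP (G := G) hyper_bot (1 : (⊥ : Subgroup G) →* ℂˣ)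
      exact h3
    · rw [hF, ← natCast_zsmul]
      exact hgood


end Run7.h988.DG
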