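import Mathlib
import Pool.Agent.Run7.h988.DG.RealMain

/-!
# Deligne's conjecture for the Artin twists: descent of the field of coefficients
-/

set_option autoImplicit false
set_option linter.unusedSectionVars false

namespace Run7.h988.DG

open Pool.Agent.H302R2 Pool.Agent.H302R3 Pool.Agent.H541R3.ART Pool.Agent.W446.AS
  Pool.Agent.R389 Filter Topology

section field

variable {E E' : Type} [Field E] [Field E'] [Algebra E E'] [Algebra.IsAlgebraic E E']

/-- embeddings extend -/
lemma exists_ext (τ : E →+* ℂ) : ∃ τ' : E' →+* ℂ, τ'.comp (algebraMap E E') = τ := by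
  letI : Algebra E ℂ := τ.toAlgebra
  let f : E' →ₐ[E] ℂ := IsAlgClosed.lift
  refine ⟨f.toRingHom, ?_⟩
  ext x
  exact f.commutes x

/-- an element whose conjugates over the subfield agree lies in the subfield -/
lemma mem_of_embeddings (τ₀ : E →+* ℂ) (x : E') (z : ℂ)
    (h : ∀ τ : E' →+* ℂ, τ.comp (algebraMap E E') = τ₀ → τ x = z) :
    ∃ q : E, algebraMap E E' q = x := by
  classical
  letI : Algebra E ℂ := τ₀.toAlgebra
  haveI : CharZero E := by
    haveI : CharZero ℂ := inferInstance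
    exact (RingHom.charZero_iff (ϕ := τ₀) τ₀.injective).mpr inferInstance
  have h1 := Algebra.IsAlgebraic.range_eval_eq_rootSet_minpoly (F := E) (K := E') ℂ x
  have hc : ∀ ψ : E' →ₐ[E] ℂ, ψ x = z := by
    intro ψ
    refine h ψ.toRingHom ?_
    ext y
    exact ψ.commutes y
  have h2 : (Set.range fun φ : E' →ₐ[E] ℂ => φ x) = {z} := by
    ext w
    constructor
    · rintro ⟨ψ, rfl⟩
      exact hc ψ
    · intro hw
      exact ⟨IsAlgClosed.lift, (hc _).trans hw.symm⟩
  rw [h2] at h1
  have hint : IsIntegral E x := Algebra.IsIntegral.isIntegral x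
  have hsep : (minpoly E x).Separable := (minpoly.irreducible hint).separable
  have h3 := Polynomial.card_rootSet_eq_natDegree (K := ℂ) hsep
    (IsAlgClosed.splits _)
  have h4 : Fintype.card ((minpoly E x).rootSet ℂ) = 1 := by
    rw [Fintype.card_eq_one_iff]
    refine ⟨⟨z, by rw [← h1]; rfl⟩, ?_⟩
    rintro ⟨w, hw⟩
    rw [← h1] at hw
    exact Subtype.ext hw
  rw [h4] at h3
  obtain ⟨q, hq⟩ := (minpoly.natDegree_eq_one_iff).mp h3.symm
  exact ⟨q, hq⟩

end field

variable {G : Type} [Group G] [Finite G] {E E' : Type} [Field E] [Field E'] [Algebra E E']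
  [Algebra.IsAlgebraic E E']
  {L : (E →+* ℂ) → (G → ℂ) → ℂ → ℂ} {P : (E →+* ℂ) → (G → ℂ) → ℂ} {c : ℂ}

/-- the functions of the motive with coefficients extended to `E'` -/
def up (E' : Type) [Field E'] [Algebra E E'] {X : Type} (L : (E →+* ℂ) → X) (τ' : E' →+* ℂ) : X :=
  L (τ'.comp (algebraMap E E'))

/-- **Descent of coefficients.** -/
theorem descend (τ₀ : E →+* ℂ) (hP : ∀ τ, ∀ χ ∈ Irr G, P τ χ ≠ 0) {f : G → E}
    (hdec : ∃ m, IsDecomp (fun g => τ₀ (f g)) m)
    (h : Deligne (up E' L) (up E' P) c (fun g => algebraMap E E' (f g))) :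
    Deligne L P c f := by
  classical
  obtain ⟨e', he⟩ := h
  obtain ⟨m, hm⟩ := hdec
  have hPne : ∏ᶠ χ ∈ Irr G, P τ₀ χ ^ m χ ≠ 0 := by
    rw [finprod_irr (fun χ => P τ₀ χ ^ m χ)]
    exact Finset.prod_ne_zero_iff.mpr fun χ hχ => pow_ne_zero _ (hP τ₀ χ (mem_irrF.mp hχ))
  obtain ⟨τ₁, hτ₁⟩ := exists_ext (E' := E') τ₀
  have hlim : ∀ τ' : E' →+* ℂ, τ'.comp (algebraMap E E') = τ₀ →
      Tendsto (fun s => ∏ᶠ χ ∈ Irr G, L τ₀ χ s ^ m χ) (𝓝[≠] c)
        (𝓝 (τ' e' * ∏ᶠ χ ∈ Irr G, P τ₀ χ ^ m χ)) := by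
    intro τ' hτ'
    have h1 : ∀ x, τ' (algebraMap E E' x) = τ₀ x := fun x => by rw [← hτ']; rfl
    have h2 := he τ' m (by simp only [h1]; exact hm)
    have h3 : up E' L τ' = L τ₀ := by rw [up, hτ']
    have h4 : up E' P τ' = P τ₀ := by rw [up, hτ']
    rw [h3, h4] at h2
    exact h2
  obtain ⟨e, hee⟩ := mem_of_embeddings τ₀ e' (τ₁ e') (fun τ' hτ' =>
    mul_right_cancel₀ hPne (tendsto_nhds_unique (hlim τ' hτ') (hlim τ₁ hτ₁)))
  refine ⟨e, fun τ m' hm' => ?_⟩
  obtain ⟨τ', hτ'⟩ := exists_ext (E' := E') τ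
  have h1 : ∀ x, τ' (algebraMap E E' x) = τ x := fun x => by rw [← hτ']; rfl
  have h2 := he τ' m' (by simp only [h1]; exact hm')
  have h3 : up E' L τ' = L τ := by rw [up, hτ']
  have h4 : up E' P τ' = P τ := by rw [up, hτ']
  rw [h3, h4, ← hee, h1] at h2
  exact h2

/-- extension of scalars for representations -/
lemma extend_rep {V : Type} [AddCommGroup V] [Module E V] [FiniteDimensional E V]
    (ρ : Representation E G V) : ∃ (n : ℕ) (σ : Representation E' G (Fin n → E')),
      σ.character = fun g => algebraMap E E' (ρ.character g) := by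
  classical
  let b := Module.finBasis E V
  let M : G →* Matrix (Fin (Module.finrank E V)) (Fin (Module.finrank E V)) E :=
    { toFun := fun g => LinearMap.toMatrix b b (ρ g)
      map_one' := by rw [map_one]; exact LinearMap.toMatrix_one b
      map_mul' := by intro x y; rw [map_mul]; exact LinearMap.toMatrix_mul b _ _ }
  let τ : E →+* E' := algebraMap E E'
  let σ : Representation E' G (Fin (Module.finrank E V) → E') :=
    { toFun := fun g => Matrix.toLin' ((M g).map τ)
      map_one' := by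
        rw [map_one, Matrix.map_one τ (map_zero τ) (map_one τ), Matrix.toLin'_one]
        rfl
      map_mul' := by
        intro x y
        rw [map_mul, Matrix.map_mul, Matrix.toLin'_mul]
        rfl }
  refine ⟨_, σ, ?_⟩
  funext g
  change LinearMap.trace E' _ (Matrix.toLin' ((M g).map τ)) = τ (LinearMap.trace E V (ρ g))
  rw [LinearMap.trace_eq_matrix_trace E b (ρ g), Matrix.trace_toLin'_eq, Matrix.trace,
    Matrix.trace, map_sum]
  rfl

/-- representations over `E` -/
theorem descend_rep (τ₀ : E →+* ℂ) (hP : ∀ τ, ∀ χ ∈ Irr G, P τ χ ≠ 0)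
    {V : Type} [AddCommGroup V] [Module E V] [FiniteDimensional E V] (ρ : Representation E G V)
    (h : ∀ (n : ℕ) (σ : Representation E' G (Fin n → E')),
      σ.character = (fun g => algebraMap E E' (ρ.character g)) →
        Deligne (up E' L) (up E' P) c σ.character) :
    Deligne L P c ρ.character := by
  obtain ⟨n, σ, hσ⟩ := extend_rep (E' := E') ρ
  refine descend (E' := E') τ₀ hP (decomp_of_closure (base_change τ₀ ρ)) ?_
  rw [← hσ]
  exact h n σ hσ

end Run7.h988.DG
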