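import Mathlib
import Pool.Agent.Run7.h988.DG.Descend

/-!
# Deligne's conjecture for the Artin twists: zeros of abelian-by-nilpotent origin
-/

set_option autoImplicit false
set_option linter.unusedSectionVars false

namespace Run7.h988.DG

open Pool.Agent.H302R2 Pool.Agent.H302R3 Pool.Agent.H541R3.ART Pool.Agent.W446.AS
  Pool.Agent.R389 Filter Topology
open scoped commutatorElement

variable {G : Type} [Group G] [Finite G]

/-- irreducible characters of abelian-by-nilpotent quotients are monomial -/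
lemma an_closure {K : Subgroup G} [K.Normal] (hAN : AN (G ⧸ K)) {f : G ⧸ K → ℂ}
    (hf : f ∈ AddSubmonoid.closure (Irr (G ⧸ K))) :
    (fun g => f (QuotientGroup.mk' K g)) ∈ MonPA G := by
  induction hf using AddSubmonoid.closure_induction with
  | mem χ hχ =>
    obtain ⟨V, ψ, rfl⟩ := an_mono _ (G ⧸ K) rfl hAN χ hχ
    rw [ind_comap (QuotientGroup.mk'_surjective K)]
    refine AddSubmonoid.subset_closure ⟨V.comap (QuotientGroup.mk' K), ψ.comp
      ({ toFun := fun h => ⟨QuotientGroup.mk' K h, h.2⟩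
         map_one' := by ext; simp
         map_mul' := by intro x y; ext; simp } : V.comap (QuotientGroup.mk' K) →* V), rfl⟩
  | zero => exact zero_mem _
  | add a b _ _ ha hb => exact add_mem ha hb

/-- abelian-by-nilpotent quotients -/
lemma an_commutator {N : Subgroup G} [N.Normal] (h : Group.IsNilpotent (G ⧸ N)) :
    AN (G ⧸ ⁅N, N⁆) := by
  have hA : (N.map (QuotientGroup.mk' ⁅N, N⁆)).Normal :=
    Subgroup.Normal.map inferInstance _ (QuotientGroup.mk'_surjective _)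
  refine ⟨N.map (QuotientGroup.mk' ⁅N, N⁆), hA, ?_, ?_⟩
  · rintro ⟨_, ⟨a, ha, rfl⟩⟩ ⟨_, ⟨b, hb, rfl⟩⟩
    apply Subtype.ext
    change QuotientGroup.mk' ⁅N, N⁆ a * QuotientGroup.mk' ⁅N, N⁆ b
      = QuotientGroup.mk' ⁅N, N⁆ b * QuotientGroup.mk' ⁅N, N⁆ a
    rw [← map_mul, ← map_mul]
    refine (QuotientGroup.eq).mpr ?_
    have h1 : (a * b)⁻¹ * (b * a) = ⁅b⁻¹, a⁻¹⁆ := by
      rw [commutatorElement_def]; group
    rw [h1]
    exact Subgroup.commutator_mem_commutator (inv_mem hb) (inv_mem ha)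
  · refine Group.nilpotent_of_surjective (QuotientGroup.lift N
      ((QuotientGroup.mk' (N.map (QuotientGroup.mk' ⁅N, N⁆))).comp (QuotientGroup.mk' ⁅N, N⁆))
      (fun x hx => ?_)) ?_
    · exact (QuotientGroup.eq_one_iff _).mpr (Subgroup.mem_map_of_mem _ hx)
    · intro q
      obtain ⟨y, rfl⟩ := QuotientGroup.mk_surjective q
      obtain ⟨x, rfl⟩ := QuotientGroup.mk_surjective y
      exact ⟨QuotientGroup.mk x, rfl⟩

variable {E : Type} [Field E]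
  {L : (E →+* ℂ) → (G → ℂ) → ℂ → ℂ} {P : (E →+* ℂ) → (G → ℂ) → ℂ} {c : ℂ}

/-- sums of monomial characters -/
lemma del_of_monPA {ζ : E} (hζ : IsPrimitiveRoot ζ (Monoid.exponent G))
    (hL : ∀ τ, ∀ χ ∈ Irr G, MeromorphicAt (L τ χ) c ∧ meromorphicOrderAt (L τ χ) c ≠ ⊤)
    (hP : ∀ τ, ∀ χ ∈ Irr G, P τ χ ≠ 0)
    (hmon : ∀ (U : Subgroup G) (ψ : U →* Eˣ),
      Deligne L P c (ind U (fun u => ((ψ u : Eˣ) : E)))) (τ₀ : E →+* ℂ)
    {F : G → E} (hF : (fun g => τ₀ (F g)) ∈ MonPA G) : Deligne L P c F := by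
  obtain ⟨f, e, h1, h2⟩ := monA_del hζ hL hP hmon τ₀ hF
  have h3 : F = f := funext fun g => τ₀.injective (by rw [h1])
  rw [h3]
  exact h2.deligne

/-- representations of abelian-by-nilpotent quotients -/
lemma del_of_an {ζ : E} (hζ : IsPrimitiveRoot ζ (Monoid.exponent G))
    (hL : ∀ τ, ∀ χ ∈ Irr G, MeromorphicAt (L τ χ) c ∧ meromorphicOrderAt (L τ χ) c ≠ ⊤)
    (hP : ∀ τ, ∀ χ ∈ Irr G, P τ χ ≠ 0)
    (hmon : ∀ (U : Subgroup G) (ψ : U →* Eˣ),
      Deligne L P c (ind U (fun u => ((ψ u : Eˣ) : E)))) (τ₀ : E →+* ℂ)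
    {K : Subgroup G} [K.Normal] (hAN : AN (G ⧸ K))
    {W : Type} [AddCommGroup W] [Module E W] [FiniteDimensional E W]
    (σ : Representation E G W) (hσ : ∀ k ∈ K, ∀ w, σ k w = w) :
    Deligne L P c σ.character := by
  let σ' : Representation E (G ⧸ K) W :=
    QuotientGroup.lift K σ (fun k hk => LinearMap.ext (hσ k hk))
  have h1 : (fun g => τ₀ (σ.character g))
      = fun g => (fun x => τ₀ (σ'.character x)) (QuotientGroup.mk' K g) := rfl
  refine del_of_monPA hζ hL hP hmon τ₀ ?_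
  rw [h1]
  exact an_closure hAN (base_change τ₀ σ')

/-- **All zeros of abelian-by-nilpotent origin.** -/
theorem main_an {ζ : E} (hζ : IsPrimitiveRoot ζ (Monoid.exponent G))
    (hL : ∀ τ, ∀ χ ∈ Irr G, MeromorphicAt (L τ χ) c ∧ meromorphicOrderAt (L τ χ) c ≠ ⊤)
    (hP : ∀ τ, ∀ χ ∈ Irr G, P τ χ ≠ 0)
    (hmon : ∀ (U : Subgroup G) (ψ : U →* Eˣ),
      Deligne L P c (ind U (fun u => ((ψ u : Eˣ) : E)))) (τ₀ : E →+* ℂ)
    {deg : (G → ℂ) → ℕ} (hdeg : ∀ χ ∈ Irr G, χ 1 = deg χ)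
    (K : Subgroup G) [hK : K.Normal] (hAN : AN (G ⧸ K))
    (hz : meromorphicOrderAt (fun s => ∏ᶠ χ ∈ Irr G, L τ₀ χ s ^ deg χ) c ≤
      meromorphicOrderAt (fun s => ∏ᶠ χ ∈ {χ ∈ Irr G | ∀ k ∈ K, χ k = χ 1}, L τ₀ χ s ^ deg χ) c)
    {V : Type} [AddCommGroup V] [Module E V] [FiniteDimensional E V] (ρ : Representation E G V) :
    Deligne L P c ρ.character := by
  refine main_grow hζ hL hP (fun U ψ _ => hmon U ψ) τ₀ hdeg K 1 ?_ ?_ ρ
  · intro W _ _ _ σ hσ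
    exact del_of_an hζ hL hP hmon τ₀ hAN σ (fun k hk w => by simpa using hσ k hk w)
  · simpa using hz

/-- **Small growth over a nilpotent extension.** -/
theorem main_small_nil {ζ : E} (hζ : IsPrimitiveRoot ζ (Monoid.exponent G))
    (hL : ∀ τ, ∀ χ ∈ Irr G, MeromorphicAt (L τ χ) c ∧ meromorphicOrderAt (L τ χ) c ≠ ⊤)
    (hP : ∀ τ, ∀ χ ∈ Irr G, P τ χ ≠ 0)
    (hmon : ∀ (U : Subgroup G) (ψ : U →* Eˣ),
      Deligne L P c (ind U (fun u => ((ψ u : Eˣ) : E)))) (τ₀ : E →+* ℂ)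
    {deg : (G → ℂ) → ℕ} (hdeg : ∀ χ ∈ Irr G, χ 1 = deg χ)
    (N : Subgroup G) [N.Normal] (hN : Group.IsSolvable N) (hnil : Group.IsNilpotent (G ⧸ N))
    (lam : N →* ℂˣ) {m : (G → ℂ) → ℕ}
    (hm : IsDecomp (ind N (fun x => ((lam x : ℂˣ) : ℂ))) m)
    (hz : ∀ p : ℕ, p.Prime → p ∣ Nat.card N →
      meromorphicOrderAt (fun s => ∏ᶠ χ ∈ Irr G, L τ₀ χ s ^ deg χ) c <
      meromorphicOrderAt (fun s => ∏ᶠ χ ∈ Irr G, L τ₀ χ s ^ m χ) c + p)
    {V : Type} [AddCommGroup V] [Module E V] [FiniteDimensional E V] (ρ : Representation E G V) :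
    Deligne L P c ρ.character :=
  main_small hζ hL hP (fun U ψ _ => hmon U ψ) τ₀ hdeg N hN lam hm hz
    (fun _ _ _ _ σ hσ => del_of_an hζ hL hP hmon τ₀ (an_commutator hnil) σ hσ) ρ

end Run7.h988.DG
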