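import Mathlib
import Pool.Agent.Run7.h988.DG.Small

/-!
# Deligne's conjecture for the Artin twists: the final forms over the field of coefficients
-/

set_option autoImplicit false
set_option linter.unusedSectionVars false

namespace Run7.h988.DG

open Pool.Agent.H302R2 Pool.Agent.H302R3 Pool.Agent.H541R3.ART Pool.Agent.W446.AS
  Pool.Agent.R389 Filter Topology

variable {G : Type} [Group G] [Finite G] {E : Type} [Field E]

section top

variable {L : (E →+* ℂ) → (G → ℂ) → ℂ → ℂ} {P : (E →+* ℂ) → (G → ℂ) → ℂ} {c : ℂ}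

/-- the multiplicity of `theta` is the order -/
lemma pr_theta_order {τ : E →+* ℂ}
    (hL : ∀ χ ∈ Irr G, MeromorphicAt (L τ χ) c ∧ meromorphicOrderAt (L τ χ) c ≠ ⊤)
    {f : G → ℂ} {m : (G → ℂ) → ℕ} (hm : IsDecomp f m) :
    ∃ k : ℤ, pr (theta (ords (L τ) c) : G → ℂ) f = k ∧
      meromorphicOrderAt (fun s => ∏ᶠ χ ∈ Irr G, L τ χ s ^ m χ) c = (k : WithTop ℤ) := by
  classical
  have h2 := pr_ords (l := L τ) (c := c) (m := fun χ => (m χ : ℤ))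
    (fun χ hχ => by rw [hm.pr hχ]; simp)
  have h3 := order_prod hL (irrF G) subset_rfl (fun χ => (m χ : ℤ))
  have h4 : (fun s => ∏ᶠ χ ∈ Irr G, L τ χ s ^ m χ)
      = fun z => ∏ χ ∈ irrF G, L τ χ z ^ ((m χ : ℕ) : ℤ) := by
    funext s
    rw [finprod_irr (fun χ => L τ χ s ^ m χ)]
    exact Finset.prod_congr rfl fun χ _ => by rw [zpow_natCast]
  refine ⟨_, h2, ?_⟩
  rw [h4, h3.2]

/-- **Simple abelian new zeros.** -/
theorem main_simple {ζ : E} (hζ : IsPrimitiveRoot ζ (Monoid.exponent G))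
    (hL : ∀ τ, ∀ χ ∈ Irr G, MeromorphicAt (L τ χ) c ∧ meromorphicOrderAt (L τ χ) c ≠ ⊤)
    (hP : ∀ τ, ∀ χ ∈ Irr G, P τ χ ≠ 0)
    (hmon : ∀ (U : Subgroup G) (ψ : U →* Eˣ),
      Deligne L P c (ind U (fun u => ((ψ u : Eˣ) : E)))) (τ₀ : E →+* ℂ)
    {deg : (G → ℂ) → ℕ} (hdeg : ∀ χ ∈ Irr G, χ 1 = deg χ)
    (N : Subgroup G) [hN : N.Normal]
    (hz : meromorphicOrderAt (fun s => ∏ᶠ χ ∈ Irr G, L τ₀ χ s ^ deg χ) c ≤
      meromorphicOrderAt
        (fun s => ∏ᶠ χ ∈ {χ ∈ Irr G | ∀ k ∈ ⁅N, N⁆, χ k = χ 1}, L τ₀ χ s ^ deg χ) c)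
    (hs : ∀ μ : N →* ℂˣ, μ ≠ 1 → ∀ m : (G → ℂ) → ℕ,
      IsDecomp (ind N (fun x => ((μ x : ℂˣ) : ℂ))) m →
      meromorphicOrderAt (fun s => ∏ᶠ χ ∈ Irr G, L τ₀ χ s ^ m χ) c ≤ 1)
    (hold : ∀ (W : Type) [AddCommGroup W] [Module E W] [FiniteDimensional E W]
      (σ : Representation E G W), (∀ k ∈ N, ∀ w, σ k w = w) → Deligne L P c σ.character)
    {V : Type} [AddCommGroup V] [Module E V] [FiniteDimensional E V] (ρ : Representation E G V) :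
    Deligne L P c ρ.character := by
  refine main_simple' hζ hL hP hmon τ₀ N ?_ ?_ hold ρ
  · have h1 := zeros_old hζ hL (fun U ψ _ => hmon U ψ) τ₀ hdeg ⁅N, N⁆ 1 (by simpa using hz)
    intro k hk
    simpa using h1 k hk
  · intro μ hμ d hd
    obtain ⟨m, hm⟩ := ind_isDecomp N μ
    obtain ⟨k, hk, hk2⟩ := pr_theta_order (L := L) (τ := τ₀) (c := c) (hL τ₀) hm
    have h1 := hs μ hμ m hm
    rw [hk2] at h1
    have h2 : ((k : ℤ) : WithTop ℤ) ≤ ((1 : ℤ) : WithTop ℤ) := h1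
    have h3 : k ≤ 1 := WithTop.coe_le_coe.mp h2
    change pr (theta (ords (L τ₀) c) : G → ℂ) (ind N (fun x => ((μ x : ℂˣ) : ℂ))) = d at hd
    rw [hk] at hd
    have h4 : k = d := by exact_mod_cast hd
    omega

end top

variable {E' : Type} [Field E'] [Algebra E E'] [Algebra.IsAlgebraic E E']
  {L : (E →+* ℂ) → (G → ℂ) → ℂ → ℂ} {P : (E →+* ℂ) → (G → ℂ) → ℂ} {c : ℂ}

lemma up_self {X : Type} (L : (E →+* ℂ) → X) : up E L = L := by
  funext τ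
  rw [up]
  congr 1

/-- order at most two, real coefficients -/
theorem fin_real {ζ : E'} (hζ : IsPrimitiveRoot ζ (Monoid.exponent G))
    (hL : ∀ τ, ∀ χ ∈ Irr G, MeromorphicAt (L τ χ) c ∧ meromorphicOrderAt (L τ χ) c ≠ ⊤)
    (hP : ∀ τ, ∀ χ ∈ Irr G, P τ χ ≠ 0)
    (hmon : ∀ (U : Subgroup G) (ψ : U →* E'ˣ),
      Deligne (up E' L) (up E' P) c (ind U (fun u => ((ψ u : E'ˣ) : E')))) (τ₀ : E →+* ℂ)
    (hreal : ∀ x : E, (starRingEnd ℂ) (τ₀ x) = τ₀ x)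
    {deg : (G → ℂ) → ℕ} (hdeg : ∀ χ ∈ Irr G, χ 1 = deg χ)
    (hz : meromorphicOrderAt (fun s => ∏ᶠ χ ∈ Irr G, L τ₀ χ s ^ deg χ) c ≤ 2)
    {V : Type} [AddCommGroup V] [Module E V] [FiniteDimensional E V] (ρ : Representation E G V)
    (hpole : ∀ m : (G → ℂ) → ℕ, IsDecomp (fun g => τ₀ (ρ.character g)) m →
      0 ≤ meromorphicOrderAt (fun s => ∏ᶠ χ ∈ Irr G, L τ₀ χ s ^ m χ) c) :
    Deligne L P c ρ.character := by
  obtain ⟨τ₁, hτ₁⟩ := exists_ext (E' := E') τ₀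
  have h1 : ∀ x, τ₁ (algebraMap E E' x) = τ₀ x := fun x => by rw [← hτ₁]; rfl
  have h3 : up E' L τ₁ = L τ₀ := by rw [up, hτ₁]
  have h4 : up E' L ((starRingEnd ℂ).comp τ₁) = up E' L τ₁ := by
    rw [h3, up]
    congr 1
    ext x
    change (starRingEnd ℂ) (τ₁ (algebraMap E E' x)) = _
    rw [h1, hreal]
  obtain ⟨m, hm⟩ := decomp_of_closure (base_change τ₀ ρ)
  refine descend (E' := E') τ₀ hP ⟨m, hm⟩ ?_
  refine main_real (L := up E' L) (P := up E' P) hζ (fun τ => hL _) (fun τ => hP _) hmon τ₁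
    (fun x => by rw [h1, hreal]) h4 hdeg (by rw [h3]; exact hz) ρ (m := m)
    (by simp only [h1]; exact hm) ?_
  rw [h3]
  exact hpole m hm

/-- the general descent of a theorem for all representations -/
theorem fin_all (τ₀ : E →+* ℂ) (hP : ∀ τ, ∀ χ ∈ Irr G, P τ χ ≠ 0)
    (h : ∀ (τ₁ : E' →+* ℂ), up E' L τ₁ = L τ₀ → ∀ (n : ℕ) (σ : Representation E' G (Fin n → E')),
      Deligne (up E' L) (up E' P) c σ.character)
    {V : Type} [AddCommGroup V] [Module E V] [FiniteDimensional E V] (ρ : Representation E G V) :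
    Deligne L P c ρ.character := by
  obtain ⟨τ₁, hτ₁⟩ := exists_ext (E' := E') τ₀
  exact descend_rep (E' := E') τ₀ hP ρ fun n σ _ => h τ₁ (by rw [up, hτ₁]) n σ

end Run7.h988.DG
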