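import Mathlib
import Pool.Agent.Run7.h988.DG.Fin

/-!
# Deligne's conjecture for the Artin twists: the new L-functions at all embeddings
-/

set_option autoImplicit false
set_option linter.unusedSectionVars false

namespace Run7.h988.DG

open Pool.Agent.H302R2 Pool.Agent.H302R3 Pool.Agent.H541R3.ART Pool.Agent.W446.AS
  Pool.Agent.R389 Filter Topology

variable {G : Type} [Group G] [Finite G] {E : Type} [Field E]
  {L : (E →+* ℂ) → (G → ℂ) → ℂ → ℂ} {P : (E →+* ℂ) → (G → ℂ) → ℂ} {c : ℂ}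

/-- characters which are not isotypic are new -/
lemma new_of_irr {K : Subgroup G} [K.Normal] {lam : G →* ℂˣ} {χ : G → ℂ} (hχ : χ ∈ Irr G)
    (hnew : ¬ ∀ k ∈ K, χ k = χ 1 * ((lam k : ℂˣ) : ℂ)) : χ ∈ NewTA K lam := by
  have hχ' := irr_twist hχ lam⁻¹
  have hback : twHom lam (fun g => χ g * ((lam⁻¹ g : ℂˣ) : ℂ)) = χ := by
    funext g
    change χ g * ((lam⁻¹ g : ℂˣ) : ℂ) * ((lam g : ℂˣ) : ℂ) = χ g
    rw [MonoidHom.inv_apply, mul_assoc, ← Units.val_mul, inv_mul_cancel, Units.val_one, mul_one]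
  rcases irr_inv K hχ' with h | ⟨-, h⟩
  · exfalso
    apply hnew
    intro k hk
    have h2 := h 1 k hk
    simp only [one_mul, map_one, Units.val_one, mul_one] at h2
    rw [← h2, MonoidHom.inv_apply, mul_assoc, ← Units.val_mul, inv_mul_cancel, Units.val_one,
      mul_one]
  · have h1 := new_twistT K lam (relative_brauer K (AddSubgroup.subset_closure hχ') h)
    rw [AddSubgroup.mem_comap, hback] at h1
    exact h1

/-- the multiplicity of an irreducible character in `theta` -/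
lemma pr_theta_irr {l : (G → ℂ) → ℂ → ℂ} {χ : G → ℂ} (hχ : χ ∈ Irr G) :
    pr (theta (ords l c) : G → ℂ) χ = ords l c χ := by
  classical
  have h1 := pr_ords (l := l) (c := c) (f := χ) (m := fun η => if η = χ then 1 else 0)
    (fun η hη => by
      by_cases h : η = χ
      · rw [if_pos h, h, pr_self hχ]; simp
      · rw [if_neg h, pr_ne hχ hη (Ne.symm h)]; simp)
  rw [h1]
  congr 1
  rw [Finset.sum_eq_single χ]
  · simp
  · intro η _ hη
    rw [if_neg hη, zero_mul]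
  · intro h
    exact absurd (mem_irrF.mpr hχ) h

/-- the value at all embeddings of a nonvanishing monomial character -/
lemma pr_zero_of_unit {τ : E →+* ℂ}
    (hL : ∀ χ ∈ Irr G, MeromorphicAt (L τ χ) c ∧ meromorphicOrderAt (L τ χ) c ≠ ⊤)
    (hP : ∀ χ ∈ Irr G, P τ χ ≠ 0) {f : G → E} {e : E} (he : e ≠ 0) (h : DelZ L P c f e) :
    pr (theta (ords (L τ) c) : G → ℂ) (fun g => τ (f g)) = 0 := by
  classical
  have h2 := pr_ords (l := L τ) (c := c) (f := fun g => τ (f g))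
    (m := fun χ => mult (fun g => τ (f g)) χ) (fun χ hχ => mult_spec (h.1 τ) hχ)
  have h3 := order_prod hL (irrF G) subset_rfl (fun χ => mult (fun g => τ (f g)) χ)
  have hPne : ∏ χ ∈ irrF G, P τ χ ^ mult (fun g => τ (f g)) χ ≠ 0 :=
    Finset.prod_ne_zero_iff.mpr fun χ hχ => zpow_ne_zero _ (hP χ (mem_irrF.mp hχ))
  have h9 : τ e * ∏ χ ∈ irrF G, P τ χ ^ mult (fun g => τ (f g)) χ ≠ 0 :=
    mul_ne_zero ((map_ne_zero τ).mpr he) hPne
  have h10 := (tendsto_ne_zero_iff_meromorphicOrderAt_eq_zero h3.1).mp ⟨_, h9, h.2 τ⟩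
  rw [h3.2] at h10
  have h11 : ∑ χ ∈ irrF G, mult (fun g => τ (f g)) χ * ords (L τ) c χ = 0 := by
    exact_mod_cast h10
  rw [h2, h11]
  norm_num

/-- **The new L-functions at all embeddings.** If all zeros at one embedding are old, then at every
embedding the L-functions of the new characters have neither a zero nor a pole. -/
theorem new_all {ζ : E} (hζ : IsPrimitiveRoot ζ (Monoid.exponent G))
    (hL : ∀ τ, ∀ χ ∈ Irr G, MeromorphicAt (L τ χ) c ∧ meromorphicOrderAt (L τ χ) c ≠ ⊤)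
    (hP : ∀ τ, ∀ χ ∈ Irr G, P τ χ ≠ 0)
    (hmon : ∀ (U : Subgroup G) (ψ : U →* Eˣ), Tame U →
      Deligne L P c (ind U (fun u => ((ψ u : Eˣ) : E)))) (τ₀ : E →+* ℂ)
    {deg : (G → ℂ) → ℕ} (hdeg : ∀ χ ∈ Irr G, χ 1 = deg χ)
    (K : Subgroup G) [hK : K.Normal] (lam : G →* Eˣ)
    (hz : meromorphicOrderAt (fun s => ∏ᶠ χ ∈ Irr G, L τ₀ χ s ^ deg χ) c ≤
      meromorphicOrderAt (fun s => ∏ᶠ χ ∈ {χ ∈ Irr G | ∀ k ∈ K, χ k = χ 1 * τ₀ ((lam k : Eˣ) : E)},
        L τ₀ χ s ^ deg χ) c) (τ : E →+* ℂ) {χ : G → ℂ} (hχ : χ ∈ Irr G)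
    (hnew : ¬ ∀ k ∈ K, χ k = χ 1 * τ ((lam k : Eˣ) : E)) :
    meromorphicOrderAt (L τ χ) c = 0 := by
  classical
  set lam₀ : G →* ℂˣ := (Units.map τ₀.toMonoidHom).comp lam with hlam₀
  set lam₁ : G →* ℂˣ := (Units.map τ.toMonoidHom).comp lam with hlam₁
  have hmon' : ∀ (U : Subgroup G) (ψ : U →* Eˣ), Hyper U →
      Deligne L P c (ind U (fun u => ((ψ u : Eˣ) : E))) := fun U ψ hU => hmon U ψ (Or.inl hU)
  have hKth := zeros_old hζ hL hmon' τ₀ hdeg K lam₀ hz
  have h1 : χ ∈ NewTA K lam₁ := new_of_irr hχ hnew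
  have key : ∀ s ∈ NewTA K lam₁, pr (theta (ords (L τ) c) : G → ℂ) s = 0 := by
    intro s hs
    induction hs using AddSubgroup.closure_induction with
    | mem s hs =>
      obtain ⟨U, ψ, hU, ⟨u, hu, hne⟩, rfl⟩ := hs
      obtain ⟨ψE, hψE⟩ := lift_char hζ τ U ψ
      have hneE : ψE u ≠ lam u := by
        intro h2
        apply hne
        apply Units.ext
        rw [← hψE u, h2]
        rfl
      obtain ⟨f, e, hf, he, hfe⟩ := new_unitT hζ hL hP hmon τ₀ hKth
        (s := ind U (fun h => τ₀ ((ψE h : Eˣ) : E))) (AddSubgroup.subset_closure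
          ⟨U, (Units.map τ₀.toMonoidHom).comp ψE, hU, ⟨u, hu, fun h2 => hneE (by
            apply Units.ext
            exact τ₀.injective (congrArg Units.val h2))⟩, rfl⟩)
      have hff : f = ind U (fun h => ((ψE h : Eˣ) : E)) := by
        funext g
        apply τ₀.injective
        rw [hf, ind_map]
      have h2 := pr_zero_of_unit (τ := τ) (hL τ) (hP τ) he hfe
      rw [hff] at h2
      have h3 : (fun g => τ (ind U (fun h => ((ψE h : Eˣ) : E)) g))
          = ind U (fun h => ((ψ h : ℂˣ) : ℂ)) := by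
        funext g
        rw [ind_map]
        congr 1
        funext u
        exact hψE u
      rw [h3] at h2
      exact h2
    | zero => rw [pr_comm, pr_zero_left]
    | add a b _ _ ha hb => rw [pr_comm, pr_add, pr_comm a, pr_comm b, ha, hb, add_zero]
    | neg a _ ha => rw [pr_comm, pr_neg, pr_comm a, ha, neg_zero]
  have h2 := key χ h1
  rw [pr_theta_irr hχ] at h2
  have h3 : ords (L τ) c χ = 0 := by exact_mod_cast h2
  have h4 := (hL τ χ hχ).2
  rw [← WithTop.coe_untop₀_of_ne_top h4]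
  change ((ords (L τ) c χ : ℤ) : WithTop ℤ) = 0
  rw [h3]
  rfl

/-- **The new representations.** -/
theorem main_newT {ζ : E} (hζ : IsPrimitiveRoot ζ (Monoid.exponent G))
    (hL : ∀ τ, ∀ χ ∈ Irr G, MeromorphicAt (L τ χ) c ∧ meromorphicOrderAt (L τ χ) c ≠ ⊤)
    (hP : ∀ τ, ∀ χ ∈ Irr G, P τ χ ≠ 0)
    (hmon : ∀ (U : Subgroup G) (ψ : U →* Eˣ), Tame U →
      Deligne L P c (ind U (fun u => ((ψ u : Eˣ) : E)))) (τ₀ : E →+* ℂ)
    {deg : (G → ℂ) → ℕ} (hdeg : ∀ χ ∈ Irr G, χ 1 = deg χ)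
    (K : Subgroup G) [hKn : K.Normal] (lam : G →* Eˣ)
    (hz : meromorphicOrderAt (fun s => ∏ᶠ χ ∈ Irr G, L τ₀ χ s ^ deg χ) c ≤
      meromorphicOrderAt (fun s => ∏ᶠ χ ∈ {χ ∈ Irr G | ∀ k ∈ K, χ k = χ 1 * τ₀ ((lam k : Eˣ) : E)},
        L τ₀ χ s ^ deg χ) c)
    {V : Type} [AddCommGroup V] [Module E V] [FiniteDimensional E V] (ρ : Representation E G V)
    (hρ : ∑ᶠ k : K, ρ.character k * (((lam k)⁻¹ : Eˣ) : E) = 0) :
    Deligne L P c ρ.character := by
  classical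
  have : Fintype K := Fintype.ofFinite K
  set lam₀ : G →* ℂˣ := (Units.map τ₀.toMonoidHom).comp lam with hlam₀
  have hmon' : ∀ (U : Subgroup G) (ψ : U →* Eˣ), Hyper U →
      Deligne L P c (ind U (fun u => ((ψ u : Eˣ) : E))) := fun U ψ hU => hmon U ψ (Or.inl hU)
  have hK := zeros_old hζ hL hmon' τ₀ hdeg K lam₀ hz
  have hb := base_change τ₀ ρ
  obtain ⟨d, hd1, hd2⟩ := avg_char K lam₀ hb
  have h0 : inv K (twHom lam₀⁻¹ (fun g => τ₀ (ρ.character g))) 1 = 0 := by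
    rw [inv_eq]
    rw [finsum_eq_sum_of_fintype] at hρ
    have h1 : ∑ k : K, twHom lam₀⁻¹ (fun g => τ₀ (ρ.character g)) (1 * k)
        = τ₀ (∑ k : K, ρ.character k * (((lam k)⁻¹ : Eˣ) : E)) := by
      rw [map_sum]
      refine Finset.sum_congr rfl fun k _ => ?_
      rw [one_mul, map_mul]
      change τ₀ (ρ.character k) * ((lam₀⁻¹ (k : G) : ℂˣ) : ℂ) = _
      congr 1
    rw [h1, hρ, map_zero, mul_zero]
  rw [h0] at hd1
  have hd0 : d = 0 := by exact_mod_cast hd1.symm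
  have hVirt : Virt (twHom lam₀⁻¹ (fun g => τ₀ (ρ.character g))) := by
    have h3 : AddSubmonoid.closure (Irr G) ≤ ((AddSubgroup.closure (Irr G)).comap
        (twHom lam₀⁻¹)).toAddSubmonoid := by
      rw [AddSubmonoid.closure_le]
      intro χ hχ
      exact AddSubgroup.subset_closure (irr_twist hχ _)
    exact h3 hb
  have h1 := new_twistT K lam₀ (relative_brauer K hVirt (hd2 hd0))
  have hback : twHom lam₀ (twHom lam₀⁻¹ (fun g => τ₀ (ρ.character g)))
      = fun g => τ₀ (ρ.character g) := by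
    funext g
    change τ₀ (ρ.character g) * ((lam₀⁻¹ g : ℂˣ) : ℂ) * ((lam₀ g : ℂˣ) : ℂ) = τ₀ (ρ.character g)
    rw [MonoidHom.inv_apply, mul_assoc, ← Units.val_mul, inv_mul_cancel, Units.val_one, mul_one]
  rw [AddSubgroup.mem_comap, hback] at h1
  obtain ⟨f, e, hf, -, hfe⟩ := new_unitT hζ hL hP hmon τ₀ hK h1
  have h2 : ρ.character = f := by
    funext g
    exact τ₀.injective (hf g).symm
  rw [h2]
  exact hfe.deligne

end Run7.h988.DG
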