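import Mathlib
import Pool.Agent.Run7.h988.DG.New

/-!
# Ratios of values of the Artin twists
-/

set_option autoImplicit false
set_option linter.unusedSectionVars false

namespace Run7.h988.DG

open Pool.Agent.H302R2 Pool.Agent.H302R3 Pool.Agent.H541R3.ART Pool.Agent.W446.AS
  Pool.Agent.R389 Filter Topology

/-- the order of the ratio -/
lemma ratio_mero {l : ℂ → ℂ} {c : ℂ} (h : MeromorphicAt l c ∧ meromorphicOrderAt l c ≠ ⊤)
    (h1 : MeromorphicAt l (c + 1)) (h2 : meromorphicOrderAt l (c + 1) = 0) :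
    MeromorphicAt (fun s => l s / l (s + 1)) c ∧
      meromorphicOrderAt (fun s => l s / l (s + 1)) c = meromorphicOrderAt l c := by
  have hm : MeromorphicAt (fun s => l (s + 1)) c :=
    (meromorphicAt_comp_add_const_iff_meromorphicAt (f := l) (c := (1 : ℂ)) (x := c)).mpr h1
  have ho : meromorphicOrderAt (fun s => l (s + 1)) c = 0 := by
    have h3 := meromorphicOrderAt_comp_add_const_eq_meromorphicOrderAt (f := l) (c := (1 : ℂ))
      (x := c)
    rw [← h2, ← h3]
    rfl
  refine ⟨h.1.fun_div hm, ?_⟩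
  have h5 : (fun s => l s / l (s + 1)) = l * (fun s => l (s + 1))⁻¹ := by
    funext s
    simp [div_eq_mul_inv]
  rw [h5, meromorphicOrderAt_mul h.1 hm.inv, meromorphicOrderAt_inv, ho]
  simp

end Run7.h988.DG
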